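import Pool.Agent.W_4481e3_q87.GoR
import Pool.Agent.W_4481e3_tab.T7

/-!
Tree s22o7, data 7.
-/

namespace Pool.Agent.W_4481e3_rt.s22o7

open Pool.Agent.W_4481e3_q25.EvR

theorem k146 : ckO Pool.Agent.W_4481e3_tab.T7.tab 353920 637120 33554432 2097152 2965504 4194304 5 2621440 524288 2621440 524288 522526392 493837352 14344520 14344520 268435456 268435456 16777216 16777216 4236248 4236248 0x100000c00026c00013c0109fc21200026c01006c01006c121 = true := by decide +kernel

theorem k148 : ckO Pool.Agent.W_4481e3_tab.T7.tab 353920 637120 33554432 2097152 2965504 4194304 10 2621440 524288 2621440 524288 493837352 508181872 14344520 28689040 268435456 268435456 16777216 16777216 4236248 4236248 0x100000c00000c00000c00000c00000c02000c12100013c00026c02000c02000c2100013c00026c202000c02000c02000c2102000c0209fc04000c212121212 = true := by decide +kernel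

end Pool.Agent.W_4481e3_rt.s22o7
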